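import Mathlib
import Pool.Agent.H710R2.DP.Defs
import Pool.Agent.H711R2.KG.Props
import Pool.Agent.H710R2.DP.FTasks

/-!
F4: matrix units give orthogonal unitaries.
-/

open scoped ComplexOrder InnerProductSpace ComplexConjugate
open Finset

noncomputable section

namespace H710R2.DP

open H759R2.Kad

namespace ZF4

theorem sum_root {n : ℕ} (hn : 0 < n) {ζ : ℂ} (hζ : IsPrimitiveRoot ζ n) {a b : ℕ} (ha : a < n)
    (hb : b < n) (hab : a ≠ b) :
    ∑ i : Fin n, (conj (ζ ^ (a * (i : ℕ))) * ζ ^ (b * (i : ℕ))) = 0 := by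
  have h1 : ‖ζ‖ = 1 := hζ.norm'_eq_one hn.ne'
  have hc : conj ζ * ζ = 1 := by
    rw [← Complex.normSq_eq_conj_mul_self, Complex.normSq_eq_norm_sq, h1]; simp
  set z : ℂ := conj ζ ^ a * ζ ^ b with hz
  have hzn : z ^ n = 1 := by
    rw [hz, mul_pow, ← pow_mul, ← pow_mul, mul_comm a, mul_comm b, pow_mul, pow_mul,
      ← map_pow, hζ.pow_eq_one]
    simp
  have hz1 : z ≠ 1 := by
    intro h
    apply hab
    apply hζ.pow_inj ha hb
    have h2 : ζ ^ a * z = ζ ^ b := by
      rw [hz, ← mul_assoc, ← mul_pow, mul_comm ζ, hc, one_pow, one_mul]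
    rw [← h2, h, mul_one]
  have h3 : ∀ i : Fin n, conj (ζ ^ (a * (i : ℕ))) * ζ ^ (b * (i : ℕ)) = z ^ (i : ℕ) := by
    intro i
    rw [hz, mul_pow, pow_mul, pow_mul, map_pow, map_pow]
  rw [sum_congr rfl fun i _ => h3 i, Fin.sum_univ_eq_sum_range (fun i => z ^ i) n,
    geom_sum_eq hz1, hzn, sub_self, zero_div]

end ZF4

theorem dp_Fbigorth : F_bigorth := by
  intro B _ _ _ τ hτ hB K
  obtain ⟨n, hn, f, hstar, hmul, hsum⟩ := hB (max K 1)
  have hKn : K ≤ n := (le_max_left _ _).trans hn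
  have hn0 : 0 < n := lt_of_lt_of_le Nat.one_pos ((le_max_right _ _).trans hn)
  have : NeZero n := ⟨hn0.ne'⟩
  let dg : (Fin n → ℂ) → B := fun c => ∑ i, c i • f i i
  have dstar : ∀ c, star (dg c) = dg fun i => conj (c i) := by
    intro c
    simp only [dg]
    rw [star_sum]
    refine sum_congr rfl fun i _ => ?_
    rw [star_smul, hstar]
    rfl
  have dmul : ∀ c d, dg c * dg d = dg fun i => c i * d i := by
    intro c d
    simp only [dg]
    rw [Finset.sum_mul]
    refine sum_congr rfl fun i _ => ?_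
    rw [Finset.mul_sum, Finset.sum_eq_single i]
    · rw [smul_mul_smul_comm, hmul, if_pos rfl]
    · intro j _ hj
      rw [smul_mul_smul_comm, hmul, if_neg (Ne.symm hj), smul_zero]
    · intro h
      exact absurd (mem_univ i) h
  have done : dg (fun _ => 1) = 1 := by
    simp only [dg, one_smul]
    exact hsum
  have htr : ∀ i, τ (f i i) = τ (f 0 0) := by
    intro i
    have e1 : f i i = f i 0 * f 0 i := by rw [hmul, if_pos rfl]
    have e2 : f 0 0 = f 0 i * f i 0 := by rw [hmul, if_pos rfl]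
    rw [e1, hτ.comm, ← e2]
  have dτ : ∀ c, τ (dg c) = (∑ i, c i) * τ (f 0 0) := by
    intro c
    simp only [dg]
    rw [map_sum, sum_mul]
    refine sum_congr rfl fun i _ => ?_
    rw [map_smul, htr, smul_eq_mul]
  have hunit : ∀ c : Fin n → ℂ, (∀ i, conj (c i) * c i = 1) → dg c ∈ unitary B := by
    intro c hc
    rw [Unitary.mem_iff]
    constructor
    · rw [dstar, dmul, ← done]
      congr 1
      funext i
      exact hc i
    · rw [dstar, dmul, ← done]
      congr 1
      funext i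
      rw [mul_comm]
      exact hc i
  obtain ⟨ζ, hζ⟩ : ∃ ζ : ℂ, IsPrimitiveRoot ζ n := ⟨_, Complex.isPrimitiveRoot_exp n hn0.ne'⟩
  have hnorm : ‖ζ‖ = 1 := hζ.norm'_eq_one hn0.ne'
  have hc : conj ζ * ζ = 1 := by
    rw [← Complex.normSq_eq_conj_mul_self, Complex.normSq_eq_norm_sq, hnorm]; simp
  let g : Fin K → Fin n → ℂ := fun a i => ζ ^ ((a : ℕ) * (i : ℕ))
  refine ⟨fun a => ⟨dg (g a), hunit _ fun i => ?_⟩, fun a b hab => ?_⟩
  · simp only [g]
    rw [map_pow, ← mul_pow, hc, one_pow]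
  · show τ (star (dg (g a)) * dg (g b)) = 0
    rw [dstar, dmul, dτ]
    have := ZF4.sum_root hn0 hζ (a := a) (b := b) (lt_of_lt_of_le a.2 hKn)
      (lt_of_lt_of_le b.2 hKn) (fun h => hab (Fin.ext h))
    simp only [g]
    rw [this, zero_mul]

end H710R2.DP
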