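import Mathlib
import Pool.Agent.H710R2.DP.Defs
import Pool.Agent.H710R2.DP.Defs2
import Pool.Agent.H710R2.DP.Tasks
import Pool.Agent.H710R2.DP.VTasks

/-!
V11: infinite homogeneous pieces.
-/

open scoped ComplexOrder InnerProductSpace ComplexConjugate
open Finset

noncomputable section

namespace H710R2.DP

open H759R2.Kad

namespace ZV11

section

variable {H : Type} [NormedAddCommGroup H] [InnerProductSpace ℂ H] [CompleteSpace H]

/-- A total orthogonal family of partial isometries with the same initial projection. -/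
structure Fr (M : VonNeumannAlgebra H) (p e : H →L[ℂ] H) {I : Type} (v : I → (H →L[ℂ] H)) :
    Prop where
  cp : IsCP M p
  pe : IsPr e
  mem : ∀ i, v i ∈ M
  one : ∀ i, star (v i) * v i = e
  orth : ∀ i j, i ≠ j → star (v i) * v j = 0
  pv : ∀ i, p * v i = v i
  tot : ∀ y : H →L[ℂ] H, (∀ i, y * v i = 0) → y * p = 0

variable {M : VonNeumannAlgebra H} {p e : H →L[ℂ] H} {I : Type} {v : I → (H →L[ℂ] H)}

theorem Fr.ve (h : Fr M p e v) (i : I) : v i * e = v i := by
  have h1 : star (v i - v i * e) * (v i - v i * e) = 0 := by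
    rw [star_sub, star_mul, h.pe.1, sub_mul, mul_sub, mul_sub, h.one i, mul_assoc e, h.one i,
      ← mul_assoc (star (v i)) (v i) e, h.one i, mul_assoc e (star (v i)) (v i * e),
      ← mul_assoc (star (v i)) (v i) e, h.one i, h.pe.2, h.pe.2]
    simp
  have h2 := CStarRing.star_mul_self_eq_zero_iff (v i - v i * e) |>.mp h1
  exact (sub_eq_zero.mp h2).symm

theorem Fr.vvv (h : Fr M p e v) (i : I) : v i * (star (v i) * v i) = v i := by
  rw [h.one i, h.ve i]

theorem Fr.pstar (h : Fr M p e v) (i : I) : star (v i) * p = star (v i) := by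
  have := congrArg star (h.pv i)
  rwa [star_mul, h.cp.1.1] at this

/-- totality -/
theorem Fr.ext (h : Fr M p e v) {X Y : H →L[ℂ] H} (hX : X * p = X) (hY : Y * p = Y)
    (hXY : ∀ i, X * v i = Y * v i) : X = Y := by
  have h1 := h.tot (X - Y) (fun i => by rw [sub_mul, hXY i, sub_self])
  rw [sub_mul, hX, hY] at h1
  exact sub_eq_zero.mp h1

/-- the strong sum of `v (a t) star (v (b t))` -/
theorem Fr.op (h : Fr M p e v) (hs : V_sum) (T : Type) (a b : T → I) (ha : Function.Injective a)
    (hb : Function.Injective b) :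
    ∃ W ∈ M, W * p = W ∧ p * W = W ∧ (∀ t, W * v (b t) = v (a t)) ∧
      (∀ j, (∀ t, b t ≠ j) → W * v j = 0) ∧ (∀ t, star W * v (a t) = v (b t)) ∧
      (∀ j, (∀ t, a t ≠ j) → star W * v j = 0) := by
  set w : T → (H →L[ℂ] H) := fun t => v (a t) * star (v (b t)) with hw
  have hsw : ∀ t, star (w t) = v (b t) * star (v (a t)) := by
    intro t
    simp only [hw, star_mul, star_star]
  have hw1 : ∀ t, w t * v (b t) = v (a t) := by
    intro t
    simp only [hw]
    rw [mul_assoc, h.one, h.ve]
  have hw2 : ∀ t j, b t ≠ j → w t * v j = 0 := by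
    intro t j hj
    simp only [hw]
    rw [mul_assoc, h.orth _ _ hj, mul_zero]
  have hw3 : ∀ t, star (w t) * v (a t) = v (b t) := by
    intro t
    rw [hsw, mul_assoc, h.one, h.ve]
  have hw4 : ∀ t j, a t ≠ j → star (w t) * v j = 0 := by
    intro t j hj
    rw [hsw, mul_assoc, h.orth _ _ hj, mul_zero]
  have hmem : ∀ t, w t ∈ M ∧ IsPI (w t) := by
    intro t
    refine ⟨mul_mem (h.mem _) (star_mem (h.mem _)), ?_⟩
    unfold IsPI
    have : w t * star (w t) * w t = w t * (star (w t) * v (a t)) * star (v (b t)) := by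
      simp only [hw, mul_assoc]
    rw [this, hw3, hw1]
  have horth : ∀ s t, s ≠ t → star (w s) * w t = 0 ∧ w s * star (w t) = 0 := by
    intro s t hst
    constructor
    · have : star (w s) * w t = (star (w s) * v (a t)) * star (v (b t)) := by
        simp only [hw, mul_assoc]
      rw [this, hw4 s (a t) (fun h' => hst (ha h')), zero_mul]
    · have : w s * star (w t) = (w s * v (b t)) * star (v (a t)) := by
        rw [hsw, ← mul_assoc]
      rw [this, hw2 s (b t) (fun h' => hst (hb h')), zero_mul]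
  obtain ⟨W, hWM, hW1, hW2, hW3⟩ := hs H M T w hmem horth
  refine ⟨W, hWM, ?_, ?_, ?_, ?_, ?_, ?_⟩
  · have h1 := hW3 1 (1 - p) (fun t => by
      simp only [hw, one_mul]
      rw [mul_assoc, mul_sub, mul_one, h.pstar, sub_self, mul_zero])
    rw [one_mul, mul_sub, mul_one] at h1
    exact (sub_eq_zero.mp h1).symm
  · have h1 := hW3 (1 - p) 1 (fun t => by
      simp only [hw, mul_one]
      rw [← mul_assoc, sub_mul, one_mul, h.pv, sub_self, zero_mul])
    rw [mul_one, sub_mul, one_mul] at h1
    exact (sub_eq_zero.mp h1).symm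
  · intro t
    have e1 : (star (w t) * w t) * v (b t) = v (b t) := by rw [mul_assoc, hw1, hw3]
    calc W * v (b t) = W * ((star (w t) * w t) * v (b t)) := by rw [e1]
      _ = (W * (star (w t) * w t)) * v (b t) := (mul_assoc _ _ _).symm
      _ = v (a t) := by rw [hW1, hw1]
  · intro j hj
    have h1 := hW3 1 (v j) (fun t => by rw [one_mul, hw2 t j (hj t)])
    rwa [one_mul] at h1
  · intro t
    have e1 : (w t * star (w t)) * v (a t) = v (a t) := by rw [mul_assoc, hw3, hw1]
    calc star W * v (a t) = star W * ((w t * star (w t)) * v (a t)) := by rw [e1]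
      _ = (star W * (w t * star (w t))) * v (a t) := (mul_assoc _ _ _).symm
      _ = v (b t) := by rw [hW2, hw3]
  · intro j hj
    have h1 := hW3 (star (v j)) 1 (fun t => by
      have : star (v j) * v (a t) = 0 := h.orth _ _ (fun h' => hj t h'.symm)
      simp only [hw, mul_one]
      rw [← mul_assoc, this, zero_mul])
    rw [mul_one] at h1
    have h2 := congrArg star h1
    rwa [star_mul, star_star, star_zero] at h2

/-- matrix units from an equivalence -/
theorem Fr.mu (h : Fr M p e v) (hs : V_sum) (T : Type) (L : ℕ) (σ : T × Fin L ≃ I) :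
    ∃ E : Fin L → Fin L → (H →L[ℂ] H), MU M p L E ∧
      (∀ a b, E a b * p = E a b) ∧
      ∀ a b t c, E a b * v (σ (t, c)) = if b = c then v (σ (t, a)) else 0 := by
  have hinj : ∀ a : Fin L, Function.Injective (fun t : T => σ (t, a)) := by
    intro a s t hst
    have := σ.injective hst
    exact (Prod.mk.inj this).1
  have key : ∀ a b : Fin L, ∃ W ∈ M, W * p = W ∧ p * W = W ∧
      (∀ t c, W * v (σ (t, c)) = if b = c then v (σ (t, a)) else 0) ∧
      (∀ t c, star W * v (σ (t, c)) = if a = c then v (σ (t, b)) else 0) := by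
    intro a b
    obtain ⟨W, h0, h1, h2, h3, h4, h5, h6⟩ :=
      h.op hs T (fun t => σ (t, a)) (fun t => σ (t, b)) (hinj a) (hinj b)
    refine ⟨W, h0, h1, h2, ?_, ?_⟩
    · intro t c
      by_cases hc : b = c
      · subst hc
        rw [if_pos rfl]
        exact h3 t
      · rw [if_neg hc]
        apply h4
        intro s hst
        have := σ.injective hst
        exact hc (Prod.mk.inj this).2
    · intro t c
      by_cases hc : a = c
      · subst hc
        rw [if_pos rfl]
        exact h5 t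
      · rw [if_neg hc]
        apply h6
        intro s hst
        have := σ.injective hst
        exact hc (Prod.mk.inj this).2
  choose E hE0 hE1 hE2 hE3 hE4 using key
  have hall : ∀ (P : I → Prop), (∀ t c, P (σ (t, c))) → ∀ i, P i := by
    intro P hP i
    obtain ⟨⟨t, c⟩, rfl⟩ := σ.surjective i
    exact hP t c
  refine ⟨E, ⟨hE0, ?_, ?_, ?_⟩, hE1, fun a b t c => hE3 a b t c⟩
  · intro a b
    have hp1 : star (E a b) * p = star (E a b) := by
      have := congrArg star (hE2 a b)
      rwa [star_mul, h.cp.1.1] at this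
    apply h.ext hp1 (hE1 b a)
    apply hall
    intro t c
    rw [hE4, hE3]
  · intro a b c d
    by_cases hbc : b = c
    · subst hbc
      rw [if_pos rfl]
      apply h.ext (by rw [mul_assoc, hE1]) (hE1 a d)
      apply hall
      intro t k
      rw [mul_assoc, hE3 b d, hE3 a d]
      by_cases hk : d = k
      · rw [if_pos hk, if_pos hk, hE3, if_pos rfl]
      · rw [if_neg hk, if_neg hk, mul_zero]
    · rw [if_neg hbc]
      apply h.ext (by rw [mul_assoc, hE1]) (zero_mul _)
      apply hall
      intro t k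
      rw [mul_assoc, hE3 c d, zero_mul]
      by_cases hk : d = k
      · rw [if_pos hk, hE3, if_neg hbc]
      · rw [if_neg hk, mul_zero]
  · apply h.ext (by rw [Finset.sum_mul]; exact Finset.sum_congr rfl fun a _ => hE1 a a) h.cp.1.2
    apply hall
    intro t c
    rw [h.pv, Finset.sum_mul, Finset.sum_eq_single c]
    · rw [hE3, if_pos rfl]
    · intro b _ hb
      rw [hE3, if_neg hb]
    · intro hc
      exact absurd (Finset.mem_univ c) hc

end

theorem equiv_fin (I : Type) [Infinite I] (n : ℕ) : Nonempty (I × Fin (n + 1) ≃ I) := by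
  rw [← Cardinal.eq]
  rw [Cardinal.mk_prod, Cardinal.lift_uzero, Cardinal.lift_id, Cardinal.mk_fin]
  apply Cardinal.mul_eq_left (Cardinal.aleph0_le_mk I)
  · exact (Cardinal.natCast_lt_aleph0).le.trans (Cardinal.aleph0_le_mk I)
  · exact_mod_cast Nat.succ_ne_zero n

end ZV11

theorem dp_Vinf (h1 : V_sum) : V_inf := by
  intro H _ _ _ M p e hp he I _ v hv horth hpv htot
  have h : ZV11.Fr M p e v := ⟨hp, he, fun i => (hv i).1, fun i => (hv i).2, horth, hpv, htot⟩
  intro L₀
  obtain ⟨σ⟩ := ZV11.equiv_fin I L₀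
  obtain ⟨E, hE, hEp, hEv⟩ := h.mu h1 I (L₀ + 1) σ
  refine ⟨L₀ + 1, Nat.le_succ _, E, hE, ?_⟩
  intro K₀
  obtain ⟨τ⟩ := ZV11.equiv_fin I K₀
  -- `((s, a), c) ↦ σ (τ (s, c), a)`
  let ρ : (I × Fin (L₀ + 1)) × Fin (K₀ + 1) ≃ I :=
    { toFun := fun x => σ (τ (x.1.1, x.2), x.1.2)
      invFun := fun i => (((τ.symm (σ.symm i).1).1, (σ.symm i).2), (τ.symm (σ.symm i).1).2)
      left_inv := by
        rintro ⟨⟨s, a⟩, c⟩
        simp
      right_inv := by
        intro i
        simp }
  have hρ : ∀ s a c, ρ ((s, a), c) = σ (τ (s, c), a) := fun s a c => rfl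
  obtain ⟨f, hf, hfp, hfv⟩ := h.mu h1 (I × Fin (L₀ + 1)) (K₀ + 1) ρ
  refine ⟨K₀ + 1, Nat.le_succ _, f, hf, ?_⟩
  intro i j a b
  apply h.ext (by rw [mul_assoc, hfp]) (by rw [mul_assoc, hEp])
  intro k
  obtain ⟨⟨⟨s, b'⟩, c'⟩, rfl⟩ := ρ.surjective k
  rw [mul_assoc, mul_assoc, hfv]
  have e1 : E i j * v (ρ ((s, b'), c')) = if j = b' then v (ρ ((s, i), c')) else 0 := by
    rw [hρ, hEv, hρ]
  rw [e1]
  by_cases hb : b = c'
  · by_cases hj : j = b'
    · rw [if_pos hb, if_pos hj, hρ, hEv, if_pos hj, hfv, if_pos hb, hρ]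
    · rw [if_pos hb, if_neg hj, hρ, hEv, if_neg hj, mul_zero]
  · by_cases hj : j = b'
    · rw [if_neg hb, if_pos hj, mul_zero, hfv, if_neg hb]
    · rw [if_neg hb, if_neg hj, mul_zero, mul_zero]

end H710R2.DP
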